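import Pool.Agent.Q198.ISA

set_option autoImplicit false

/-!
# Top views of two isotropic circles through each point: a counterexample

The surface `z = 2 x² + y²`, `x > 0`, with the parabolas over the lines `x = k` and over the
tangent lines `x = m y + m²` of the parabola `x = - y² / 4`.
-/

open Polynomial

namespace Pool.Agent.Results.MP_c33e78_gt.ParabolasOverTangentLines

/-- `φ` is an injective real analytic immersion of the planar domain `D` into space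
(its image `φ '' D` is an analytic surface). -/
structure IsPatch (D : Set (ℝ × ℝ)) (φ : ℝ × ℝ → ℝ × ℝ × ℝ) : Prop where
  isOpen : IsOpen D
  connected : IsConnected D
  analytic : AnalyticOnNhd ℝ φ D
  injOn : Set.InjOn φ D
  immersion : ∀ u ∈ D, Function.Injective (fderiv ℝ φ u)

/-- Isotropic circles: parabolas with vertical axis, and ellipses projecting onto circles. -/
def IsIsotropicCircle (K : Set (ℝ × ℝ × ℝ)) : Prop :=
  (∃ x₀ y₀ a b A B C : ℝ, (a ≠ 0 ∨ b ≠ 0) ∧ A ≠ 0 ∧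
    K = Set.range fun t : ℝ => (x₀ + a * t, y₀ + b * t, A * t ^ 2 + B * t + C)) ∨
  (∃ x₀ y₀ r α β γ : ℝ, 0 < r ∧
    K = {p | (p.1 - x₀) ^ 2 + (p.2.1 - y₀) ^ 2 = r ^ 2 ∧ p.2.2 = α * p.1 + β * p.2.1 + γ})

/-- Orthogonal projection to the plane `z = 0`. -/
def topView (K : Set (ℝ × ℝ × ℝ)) : Set (ℝ × ℝ) := (fun p => (p.1, p.2.1)) '' K

/-- Isotropic spheres: paraboloids of revolution and circular cylinders with vertical axis. -/
def IsIsotropicSphere (S : Set (ℝ × ℝ × ℝ)) : Prop :=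
  (∃ a b c d : ℝ, a ≠ 0 ∧
    S = {p | p.2.2 = a * (p.1 ^ 2 + p.2.1 ^ 2) + b * p.1 + c * p.2.1 + d}) ∨
  (∃ x₀ y₀ r : ℝ, 0 < r ∧ S = {p | (p.1 - x₀) ^ 2 + (p.2.1 - y₀) ^ 2 = r ^ 2})

/-- Planes in space. -/
def IsPlane (S : Set (ℝ × ℝ × ℝ)) : Prop :=
  ∃ a b c d : ℝ, (a ≠ 0 ∨ b ≠ 0 ∨ c ≠ 0) ∧ S = {p | a * p.1 + b * p.2.1 + c * p.2.2 = d}

/-- The arc `{F (u,t) : |t| < 1}`. -/
def arc (F : (ℝ × ℝ) × ℝ → ℝ × ℝ × ℝ) (u : ℝ × ℝ) : Set (ℝ × ℝ × ℝ) :=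
  (fun t => F (u, t)) '' Set.Ioo (-1) 1

/-- Through each point `φ u` of the surface passes the arc `arc F u` of the isotropic circle
`K u`; it is contained in the surface and depends analytically on the point. -/
structure IsArcFamily (D : Set (ℝ × ℝ)) (φ : ℝ × ℝ → ℝ × ℝ × ℝ)
    (K : ℝ × ℝ → Set (ℝ × ℝ × ℝ)) (F : (ℝ × ℝ) × ℝ → ℝ × ℝ × ℝ) : Prop where
  circle : ∀ u ∈ D, IsIsotropicCircle (K u)
  analytic : AnalyticOnNhd ℝ F (D ×ˢ Set.Ioo (-1) 1)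
  centre : ∀ u ∈ D, F (u, 0) = φ u
  subset : ∀ u ∈ D, arc F u ⊆ K u ∩ φ '' D
  injOn : ∀ u ∈ D, Set.InjOn (fun t => F (u, t)) (Set.Ioo (-1) 1)
  regular : ∀ u ∈ D, ∀ t ∈ Set.Ioo (-1 : ℝ) 1, deriv (fun s => F (u, s)) t ≠ 0

/-- Hypothesis (H) for the surface `φ '' D` with the arcs `arc F₁ u`, `arc F₂ u` of the
isotropic circles `K₁ u`, `K₂ u` through the point `φ u`. -/
structure HypothesisH (D : Set (ℝ × ℝ)) (φ : ℝ × ℝ → ℝ × ℝ × ℝ)
    (K₁ K₂ : ℝ × ℝ → Set (ℝ × ℝ × ℝ)) (F₁ F₂ : (ℝ × ℝ) × ℝ → ℝ × ℝ × ℝ) : Prop where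
  patch : IsPatch D φ
  family₁ : IsArcFamily D φ K₁ F₁
  family₂ : IsArcFamily D φ K₂ F₂
  transversal : ∀ u ∈ D,
    LinearIndependent ℝ ![deriv (fun s => F₁ (u, s)) 0, deriv (fun s => F₂ (u, s)) 0]
  notCospherical : ∀ u ∈ D, ∀ S : Set (ℝ × ℝ × ℝ), IsIsotropicSphere S →
    ¬ (arc F₁ u ∪ arc F₂ u ⊆ S)
  notCoplanar : ∀ u ∈ D, ∀ S : Set (ℝ × ℝ × ℝ), IsPlane S → ¬ (arc F₁ u ∪ arc F₂ u ⊆ S)

/-- The value of `e₀ (x² + y²) + e₁ x + e₂ y + e₃` at a real point. -/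
def circ (e : Fin 4 → ℝ) (p : ℝ × ℝ) : ℝ := e 0 * (p.1 ^ 2 + p.2 ^ 2) + e 1 * p.1 + e 2 * p.2 + e 3

/-- The value of `e₀ (x² + y²) + e₁ x + e₂ y + e₃` at a complex point. -/
def circC (e : Fin 4 → ℝ) (p : ℂ × ℂ) : ℂ :=
  e 0 * (p.1 ^ 2 + p.2 ^ 2) + e 1 * p.1 + e 2 * p.2 + e 3

/-- `e` is an equation of the line or circle `L`. -/
def IsEquation (e : Fin 4 → ℝ) (L : Set (ℝ × ℝ)) : Prop := e ≠ 0 ∧ L = {p | circ e p = 0}

/-- The value at `(x,y)` of a polynomial in `ℂ[x][y]`. -/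
noncomputable def ev (G : ℂ[X][X]) (p : ℂ × ℂ) : ℂ := (G.map (evalRingHom p.1)).eval p.2

/-- `a (x² + y²)² + (x² + y²)(b x + c y) + Q(x,y)` in `ℂ[x][y]`, where
`Q = q₀ x² + q₁ x y + q₂ y² + q₃ x + q₄ y + q₅`. -/
noncomputable def cyclicPoly (a b c : ℝ) (q : Fin 6 → ℝ) : ℂ[X][X] :=
  C (C (a : ℂ)) * (C X ^ 2 + X ^ 2) ^ 2
    + (C X ^ 2 + X ^ 2) * (C (C (b : ℂ)) * C X + C (C (c : ℂ)) * X)
    + (C (C (q 0 : ℂ)) * C X ^ 2 + C (C (q 1 : ℂ)) * C X * X + C (C (q 2 : ℂ)) * X ^ 2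
      + C (C (q 3 : ℂ)) * C X + C (C (q 4 : ℂ)) * X + C (C (q 5 : ℂ)))

/-- `G` is an equation of the reduced curve of `P = 0`. -/
def IsReducedEquation (P G : ℂ[X][X]) : Prop := Squarefree G ∧ G ∣ P ∧ ∃ n : ℕ, P ∣ G ^ n

/-- The line or circle with equation `e` is tangent to the reduced curve `G = 0` at the point
`p ∈ ℂ²`: `p` lies on both, is a nonsingular point of the curve, the line or circle is not
contained in the curve, and the gradients at `p` are parallel. -/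
def Tangent (G : ℂ[X][X]) (e : Fin 4 → ℝ) (p : ℂ × ℂ) : Prop :=
  circC e p = 0 ∧ ev G p = 0 ∧
  (deriv (fun s => ev G (s, p.2)) p.1 ≠ 0 ∨ deriv (fun s => ev G (p.1, s)) p.2 ≠ 0) ∧
  (∃ q : ℂ × ℂ, circC e q = 0 ∧ ev G q ≠ 0) ∧
  deriv (fun s => ev G (s, p.2)) p.1 * deriv (fun s => circC e (p.1, s)) p.2
    - deriv (fun s => ev G (p.1, s)) p.2 * deriv (fun s => circC e (s, p.2)) p.1 = 0

/-- Alternative (a): some cyclic is tangent at two (possibly coinciding or complex) points to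
the top views of `K₁ u` and `K₂ u` for all `u ∈ D`. -/
def AlternativeA (D : Set (ℝ × ℝ)) (K₁ K₂ : ℝ × ℝ → Set (ℝ × ℝ × ℝ)) : Prop :=
  ∃ (a b c : ℝ) (q : Fin 6 → ℝ), (a ≠ 0 ∨ b ≠ 0 ∨ c ≠ 0 ∨ q ≠ 0) ∧
    ∃ G, IsReducedEquation (cyclicPoly a b c q) G ∧
      ∀ u ∈ D, ∀ K, (K = K₁ u ∨ K = K₂ u) →
        ∃ e, IsEquation e (topView K) ∧ ∃ p p', Tangent G e p ∧ Tangent G e p'

/-- `L` belongs to the pencil spanned by (the equations) `f` and `g`. -/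
def InPencil (f g : Fin 4 → ℝ) (L : Set (ℝ × ℝ)) : Prop :=
  ∃ s t : ℝ, (s ≠ 0 ∨ t ≠ 0) ∧ L = {p | circ (s • f + t • g) p = 0}

/-- Alternative (b): the top views of all `K₁ u`, `K₂ u` lie in a union of two pencils. -/
def AlternativeB (D : Set (ℝ × ℝ)) (K₁ K₂ : ℝ × ℝ → Set (ℝ × ℝ × ℝ)) : Prop :=
  ∃ f g f' g' : Fin 4 → ℝ, LinearIndependent ℝ ![f, g] ∧ LinearIndependent ℝ ![f', g'] ∧
    ∀ u ∈ D, ∀ K, (K = K₁ u ∨ K = K₂ u) → InPencil f g (topView K) ∨ InPencil f' g' (topView K)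

/-! ## The example -/

def D₀ : Set (ℝ × ℝ) := Set.Ioi 0 ×ˢ Set.Ioi 0

noncomputable def φ₀ (u : ℝ × ℝ) : ℝ × ℝ × ℝ :=
  (u.2, u.2 / u.1 - u.1, 2 * u.2 ^ 2 + (u.2 / u.1 - u.1) ^ 2)

noncomputable def G₁ (w : (ℝ × ℝ) × ℝ) : ℝ × ℝ × ℝ :=
  (w.1.2, w.1.2 / w.1.1 - w.1.1 + w.2, 2 * w.1.2 ^ 2 + (w.1.2 / w.1.1 - w.1.1 + w.2) ^ 2)

noncomputable def G₂ (w : (ℝ × ℝ) × ℝ) : ℝ × ℝ × ℝ :=
  (w.1.2 * (1 + w.2), w.1.2 * (1 + w.2) / w.1.1 - w.1.1,
    2 * (w.1.2 * (1 + w.2)) ^ 2 + (w.1.2 * (1 + w.2) / w.1.1 - w.1.1) ^ 2)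

def C₁ (u : ℝ × ℝ) : Set (ℝ × ℝ × ℝ) :=
  Set.range fun t : ℝ => (u.2 + 0 * t, 0 + 1 * t, 1 * t ^ 2 + 0 * t + 2 * u.2 ^ 2)

def C₂ (u : ℝ × ℝ) : Set (ℝ × ℝ × ℝ) :=
  Set.range fun t : ℝ => (u.1 ^ 2 + u.1 * t, 0 + 1 * t,
    (2 * u.1 ^ 2 + 1) * t ^ 2 + 4 * u.1 ^ 3 * t + 2 * u.1 ^ 4)

lemma mem_surface (x y : ℝ) (hx : 0 < x) : (x, y, 2 * x ^ 2 + y ^ 2) ∈ φ₀ '' D₀ := by
  have hpos : 0 ≤ y ^ 2 + 4 * x := by positivity
  have hs := Real.sq_sqrt hpos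
  set s := Real.sqrt (y ^ 2 + 4 * x) with hsdef
  have hsy : y < s := by
    have : |y| < s := by
      rw [hsdef, ← Real.sqrt_sq_eq_abs]
      apply Real.sqrt_lt_sqrt (sq_nonneg y)
      linarith
    exact (le_abs_self y).trans_lt this
  have hm : 0 < (s - y) / 2 := by linarith
  refine ⟨((s - y) / 2, x), ⟨hm, hx⟩, ?_⟩
  have h1 : x / ((s - y) / 2) - (s - y) / 2 = y := by
    rw [div_sub' hm.ne', div_eq_iff hm.ne']
    linear_combination (-1/4) * hs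
  unfold φ₀
  simp only [h1]

lemma isPatch₀ : IsPatch D₀ φ₀ := by
  refine ⟨isOpen_Ioi.prod isOpen_Ioi, isConnected_Ioi.prod isConnected_Ioi, ?_, ?_, ?_⟩
  · rintro ⟨m, k⟩ ⟨hm, hk⟩
    have hm' : (m, k).1 ≠ 0 := (Set.mem_Ioi.mp hm).ne'
    have a1 : AnalyticAt ℝ (fun u : ℝ × ℝ => u.1) (m, k) := analyticAt_fst
    have a2 : AnalyticAt ℝ (fun u : ℝ × ℝ => u.2) (m, k) := analyticAt_snd
    have a3 := (a2.div a1 hm').sub a1
    exact a2.prod (a3.prod ((analyticAt_const (v := (2 : ℝ))).mul (a2.pow 2) |>.add (a3.pow 2)))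
  · rintro ⟨m, k⟩ ⟨hm, hk⟩ ⟨m', k'⟩ ⟨hm', hk'⟩ h
    simp only [Set.mem_Ioi] at hm hk hm' hk'
    simp only [φ₀, Prod.mk.injEq] at h
    obtain ⟨rfl, h2, -⟩ := h
    have h3 : (m - m') * (k + m * m') = 0 := by
      field_simp at h2
      linear_combination -h2
    rcases mul_eq_zero.mp h3 with h4 | h4
    · rw [sub_eq_zero.mp h4]
    · exfalso
      have : 0 < k + m * m' := by positivity
      linarith
  · rintro ⟨m, k⟩ ⟨hm, hk⟩
    simp only [Set.mem_Ioi] at hm hk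
    rw [injective_iff_map_eq_zero]
    rintro ⟨v, w⟩ hv
    have hdiff : DifferentiableAt ℝ φ₀ (m, k) := by
      have hm' : (m, k).1 ≠ 0 := hm.ne'
      unfold φ₀
      fun_prop (disch := assumption)
    have hline : HasDerivAt (fun s : ℝ => ((m, k) : ℝ × ℝ) + s • ((v, w) : ℝ × ℝ)) (v, w) 0 := by
      have := ((hasDerivAt_id (0 : ℝ)).smul_const ((v, w) : ℝ × ℝ)).const_add ((m, k) : ℝ × ℝ)
      simpa using this
    have hc : HasDerivAt (fun s : ℝ => φ₀ (((m, k) : ℝ × ℝ) + s • ((v, w) : ℝ × ℝ)))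
        (fderiv ℝ φ₀ (m, k) (v, w)) 0 := by
      apply HasFDerivAt.comp_hasDerivAt (f := fun s : ℝ => ((m, k) : ℝ × ℝ) + s • ((v, w) : ℝ × ℝ))
        (x := (0 : ℝ)) (l := φ₀) (l' := fderiv ℝ φ₀ (m, k)) (f' := (v, w)) _ hline
      simpa using hdiff.hasFDerivAt
    rw [hv] at hc
    have h1 := ((ContinuousLinearMap.fst ℝ ℝ (ℝ × ℝ)).hasFDerivAt).comp_hasDerivAt (0 : ℝ) hc
    have h2 := (((ContinuousLinearMap.fst ℝ ℝ ℝ).comp
      (ContinuousLinearMap.snd ℝ ℝ (ℝ × ℝ))).hasFDerivAt).comp_hasDerivAt (0 : ℝ) hc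
    have e1 : HasDerivAt (fun s : ℝ => k + s * w) w 0 := by
      have := ((hasDerivAt_id (0 : ℝ)).mul_const w).const_add k
      simpa using this
    have e0 : HasDerivAt (fun s : ℝ => m + s * v) v 0 := by
      have := ((hasDerivAt_id (0 : ℝ)).mul_const v).const_add m
      simpa using this
    have e2 : HasDerivAt (fun s : ℝ => (k + s * w) / (m + s * v) - (m + s * v))
        ((w * m - k * v) / m ^ 2 - v) 0 := by
      refine HasDerivAt.congr_deriv ((e1.div e0 (by simpa using hm.ne')).sub e0) ?_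
      simp
    have h1' : w = 0 := by
      have := h1.unique (f := fun s : ℝ => k + s * w) (by simpa [Function.comp_def, φ₀] using e1)
      simpa using this.symm
    have h2' : (w * m - k * v) / m ^ 2 - v = 0 := by
      have := h2.unique (f := fun s : ℝ => (k + s * w) / (m + s * v) - (m + s * v))
        (by simpa [Function.comp_def, φ₀] using e2)
      simpa using this.symm
    subst h1'
    have h3 : v * (k + m ^ 2) = 0 := by
      field_simp at h2'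
      linear_combination -h2'
    have h4 : v = 0 := by
      rcases mul_eq_zero.mp h3 with h | h
      · exact h
      · exfalso
        have : 0 < k + m ^ 2 := by positivity
        linarith
    rw [h4]
    rfl

lemma hasDeriv_G₁ (u : ℝ × ℝ) (t : ℝ) : HasDerivAt (fun s => G₁ (u, s))
    (0, 1, 2 * (u.2 / u.1 - u.1 + t)) t := by
  have h0 : HasDerivAt (fun s : ℝ => u.2 / u.1 - u.1 + s) 1 t := by
    simpa using (hasDerivAt_id t).const_add (u.2 / u.1 - u.1)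
  have h1 : HasDerivAt (fun _ : ℝ => u.2) 0 t := hasDerivAt_const t _
  have h2 : HasDerivAt (fun s : ℝ => 2 * u.2 ^ 2 + (u.2 / u.1 - u.1 + s) ^ 2)
      (2 * (u.2 / u.1 - u.1 + t)) t := by
    refine ((h0.pow 2).const_add (2 * u.2 ^ 2)).congr_deriv ?_
    simp
  exact h1.prodMk (h0.prodMk h2)

lemma hasDeriv_G₂ (u : ℝ × ℝ) (t : ℝ) : HasDerivAt (fun s => G₂ (u, s))
    (u.2, u.2 / u.1, 2 * (2 * (u.2 * (1 + t)) * u.2) +
      2 * (u.2 * (1 + t) / u.1 - u.1) * (u.2 / u.1)) t := by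
  have h0 : HasDerivAt (fun s : ℝ => u.2 * (1 + s)) u.2 t := by
    simpa using ((hasDerivAt_id t).const_add 1).const_mul u.2
  have h1 : HasDerivAt (fun s : ℝ => u.2 * (1 + s) / u.1 - u.1) (u.2 / u.1) t :=
    (h0.div_const u.1).sub_const u.1
  have h2 : HasDerivAt (fun s : ℝ => 2 * (u.2 * (1 + s)) ^ 2 + (u.2 * (1 + s) / u.1 - u.1) ^ 2)
      (2 * (2 * (u.2 * (1 + t)) * u.2) +
      2 * (u.2 * (1 + t) / u.1 - u.1) * (u.2 / u.1)) t := by
    refine (((h0.pow 2).const_mul 2).add (h1.pow 2)).congr_deriv ?_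
    simp
  exact h0.prodMk (h1.prodMk h2)

lemma family₁ : IsArcFamily D₀ φ₀ C₁ G₁ := by
  refine ⟨?_, ?_, ?_, ?_, ?_, ?_⟩
  · intro u _
    exact Or.inl ⟨u.2, 0, 0, 1, 1, 0, 2 * u.2 ^ 2, Or.inr one_ne_zero, one_ne_zero, rfl⟩
  · rintro ⟨⟨m, k⟩, t⟩ ⟨⟨hm, hk⟩, -⟩
    have hm' : (((m, k), t) : (ℝ × ℝ) × ℝ).1.1 ≠ 0 := (Set.mem_Ioi.mp hm).ne'
    have a0 : AnalyticAt ℝ (fun w : (ℝ × ℝ) × ℝ => w.1) ((m, k), t) := analyticAt_fst
    have a1 : AnalyticAt ℝ (fun w : (ℝ × ℝ) × ℝ => w.1.1) ((m, k), t) :=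
      analyticAt_fst.comp a0
    have a2 : AnalyticAt ℝ (fun w : (ℝ × ℝ) × ℝ => w.1.2) ((m, k), t) :=
      analyticAt_snd.comp a0
    have a3 : AnalyticAt ℝ (fun w : (ℝ × ℝ) × ℝ => w.2) ((m, k), t) := analyticAt_snd
    have a4 := ((a2.div a1 hm').sub a1).add a3
    exact a2.prod (a4.prod ((analyticAt_const (v := (2 : ℝ))).mul (a2.pow 2) |>.add (a4.pow 2)))
  · rintro ⟨m, k⟩ _
    simp [G₁, φ₀]
  · rintro ⟨m, k⟩ ⟨hm, hk⟩ _ ⟨t, -, rfl⟩
    refine ⟨⟨k / m - m + t, ?_⟩, ?_⟩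
    · simp only [G₁, Prod.mk.injEq]
      refine ⟨by ring, by ring, by ring⟩
    · exact mem_surface k (k / m - m + t) hk
  · rintro u _ t _ t' _ h
    have := congrArg (fun p : ℝ × ℝ × ℝ => p.2.1) h
    simpa [G₁] using this
  · intro u _ t _ h
    rw [(hasDeriv_G₁ u t).deriv] at h
    have := congrArg (fun p : ℝ × ℝ × ℝ => p.2.1) h
    simp at this

lemma family₂ : IsArcFamily D₀ φ₀ C₂ G₂ := by
  refine ⟨?_, ?_, ?_, ?_, ?_, ?_⟩
  · intro u _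
    refine Or.inl ⟨u.1 ^ 2, 0, u.1, 1, 2 * u.1 ^ 2 + 1, 4 * u.1 ^ 3, 2 * u.1 ^ 4,
      Or.inr one_ne_zero, by positivity, rfl⟩
  · rintro ⟨⟨m, k⟩, t⟩ ⟨⟨hm, hk⟩, -⟩
    have hm' : (((m, k), t) : (ℝ × ℝ) × ℝ).1.1 ≠ 0 := (Set.mem_Ioi.mp hm).ne'
    have a0 : AnalyticAt ℝ (fun w : (ℝ × ℝ) × ℝ => w.1) ((m, k), t) := analyticAt_fst
    have a1 : AnalyticAt ℝ (fun w : (ℝ × ℝ) × ℝ => w.1.1) ((m, k), t) :=
      analyticAt_fst.comp a0
    have a2 : AnalyticAt ℝ (fun w : (ℝ × ℝ) × ℝ => w.1.2) ((m, k), t) :=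
      analyticAt_snd.comp a0
    have a3 : AnalyticAt ℝ (fun w : (ℝ × ℝ) × ℝ => w.2) ((m, k), t) := analyticAt_snd
    have a4 := a2.mul ((analyticAt_const (v := (1 : ℝ))).add a3)
    have a5 := (a4.div a1 hm').sub a1
    exact a4.prod (a5.prod ((analyticAt_const (v := (2 : ℝ))).mul (a4.pow 2) |>.add (a5.pow 2)))
  · rintro ⟨m, k⟩ _
    simp [G₂, φ₀]
  · rintro ⟨m, k⟩ ⟨hm, hk⟩ _ ⟨t, ht, rfl⟩
    simp only [Set.mem_Ioi] at hm hk
    have hk' : 0 < k * (1 + t) := mul_pos hk (by linarith [ht.1])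
    refine ⟨⟨k * (1 + t) / m - m, ?_⟩, ⟨(m, k * (1 + t)), ⟨hm, hk'⟩, rfl⟩⟩
    simp only [G₂, Prod.mk.injEq]
    refine ⟨?_, by ring, ?_⟩
    · field_simp
      ring
    · field_simp
      ring
  · rintro ⟨m, k⟩ ⟨hm, hk⟩ t _ t' _ h
    have h' : k * (1 + t) = k * (1 + t') := congrArg (fun p : ℝ × ℝ × ℝ => p.1) h
    have := mul_left_cancel₀ (Set.mem_Ioi.mp hk).ne' h'
    linarith
  · rintro ⟨m, k⟩ ⟨hm, hk⟩ t _ h
    rw [(hasDeriv_G₂ (m, k) t).deriv] at h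
    have : k = 0 := congrArg (fun p : ℝ × ℝ × ℝ => p.1) h
    exact (Set.mem_Ioi.mp hk).ne' this

lemma hypH : HypothesisH D₀ φ₀ C₁ C₂ G₁ G₂ := by
  refine ⟨isPatch₀, family₁, family₂, ?_, ?_, ?_⟩
  · rintro ⟨m, k⟩ ⟨hm, hk⟩
    simp only [Set.mem_Ioi] at hm hk
    rw [(hasDeriv_G₁ (m, k) 0).deriv, (hasDeriv_G₂ (m, k) 0).deriv, LinearIndependent.pair_iff]
    intro s t h
    have h1 : s * 0 + t * k = 0 := by
      have := congrArg (fun p : ℝ × ℝ × ℝ => p.1) h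
      simpa using this
    have h2 : s * 1 + t * (k / m) = 0 := by
      have := congrArg (fun p : ℝ × ℝ × ℝ => p.2.1) h
      simpa using this
    have ht : t = 0 := by
      have : t * k = 0 := by linarith
      exact (mul_eq_zero.mp this).resolve_right hk.ne'
    subst ht
    exact ⟨by linarith, rfl⟩
  · rintro ⟨m, k⟩ ⟨hm, hk⟩ S hS hsub
    simp only [Set.mem_Ioi] at hm hk
    have p0 : G₁ ((m, k), 0) ∈ S := hsub (Or.inl ⟨0, by norm_num, rfl⟩)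
    have p1 : G₁ ((m, k), 1 / 2) ∈ S := hsub (Or.inl ⟨1 / 2, by norm_num, rfl⟩)
    have p2 : G₁ ((m, k), -(1 / 2)) ∈ S := hsub (Or.inl ⟨-(1 / 2), by norm_num, rfl⟩)
    have q1 : G₂ ((m, k), 1 / 2) ∈ S := hsub (Or.inr ⟨1 / 2, by norm_num, rfl⟩)
    have q2 : G₂ ((m, k), -(1 / 2)) ∈ S := hsub (Or.inr ⟨-(1 / 2), by norm_num, rfl⟩)
    rcases hS with ⟨a, b, c, d, ha, rfl⟩ | ⟨x₀, y₀, r, hr, rfl⟩
    · simp only [Set.mem_setOf_eq, G₁, G₂] at p0 p1 p2 q1 q2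
      set y := k / m - m with hy
      have ha1 : a = 1 := by linear_combination (-2) * p1 + (-2) * p2 + 4 * p0
      subst ha1
      have hc : c = 0 := by linear_combination p2 - p1
      subst hc
      have hk2 : k ^ 2 = 0 := by
        linear_combination 2 * q1 + 2 * q2 - 4 * p0
      exact hk.ne' (by simpa using hk2)
    · simp only [Set.mem_setOf_eq, G₁] at p0 p1 p2
      have : (1 : ℝ) = 0 := by linear_combination 2 * p1 + 2 * p2 - 4 * p0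
      exact one_ne_zero this
  · rintro ⟨m, k⟩ ⟨hm, hk⟩ S hS hsub
    simp only [Set.mem_Ioi] at hm hk
    have p0 : G₁ ((m, k), 0) ∈ S := hsub (Or.inl ⟨0, by norm_num, rfl⟩)
    have p1 : G₁ ((m, k), 1 / 2) ∈ S := hsub (Or.inl ⟨1 / 2, by norm_num, rfl⟩)
    have p2 : G₁ ((m, k), -(1 / 2)) ∈ S := hsub (Or.inl ⟨-(1 / 2), by norm_num, rfl⟩)
    have q1 : G₂ ((m, k), 1 / 2) ∈ S := hsub (Or.inr ⟨1 / 2, by norm_num, rfl⟩)
    obtain ⟨a, b, c, d, habc, rfl⟩ := hS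
    simp only [Set.mem_setOf_eq, G₁, G₂] at p0 p1 p2 q1
    have hc : c = 0 := by linear_combination 2 * p1 + 2 * p2 - 4 * p0
    subst hc
    have hb : b = 0 := by linear_combination p1 - p2
    subst hb
    have ha : a * k = 0 := by linear_combination 2 * q1 - 2 * p0
    have ha' : a = 0 := (mul_eq_zero.mp ha).resolve_right hk.ne'
    simp [ha'] at habc

lemma topView_C₁ (u : ℝ × ℝ) : topView (C₁ u) = {p | p.1 = u.2} := by
  ext ⟨x, y⟩
  constructor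
  · rintro ⟨_, ⟨t, rfl⟩, h⟩
    simp only [Prod.mk.injEq] at h
    simp only [Set.mem_setOf_eq]
    linarith [h.1]
  · intro h
    simp only [Set.mem_setOf_eq] at h
    refine ⟨_, ⟨y, rfl⟩, ?_⟩
    simp [h]

lemma topView_C₂ (u : ℝ × ℝ) : topView (C₂ u) = {p | p.1 = u.1 ^ 2 + u.1 * p.2} := by
  ext ⟨x, y⟩
  constructor
  · rintro ⟨_, ⟨t, rfl⟩, h⟩
    simp only [Prod.mk.injEq] at h
    simp only [Set.mem_setOf_eq]
    rw [← h.1, ← h.2]
    ring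
  · intro h
    simp only [Set.mem_setOf_eq] at h
    refine ⟨_, ⟨y, rfl⟩, ?_⟩
    simp [h]

lemma not_A : ¬ AlternativeA D₀ C₁ C₂ := by
  rintro ⟨a, b, c, q, -, G, ⟨hG, -, -⟩, h⟩
  obtain ⟨r, hr0, hr⟩ := Pool.Agent.Q198.ISA.main G hG hG.ne_zero
  apply hr0
  apply Polynomial.eq_zero_of_infinite_isRoot
  have hinf : Set.Infinite ((fun k : ℝ => (k : ℂ)) '' Set.Ioi (0 : ℝ)) :=
    (Set.Ioi_infinite 0).image (Complex.ofReal_injective.injOn)
  refine hinf.mono ?_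
  rintro _ ⟨k, hk, rfl⟩
  obtain ⟨e, ⟨he0, he⟩, p, -, ⟨h1, h2, h3, h4, h5⟩, -⟩ :=
    h (1, k) ⟨Set.mem_Ioi.mpr one_pos, hk⟩ _ (Or.inl rfl)
  rw [topView_C₁] at he
  have m0 : ((k, 0) : ℝ × ℝ) ∈ {p : ℝ × ℝ | circ e p = 0} := he ▸ rfl
  have m1 : ((k, 1) : ℝ × ℝ) ∈ {p : ℝ × ℝ | circ e p = 0} := he ▸ rfl
  have m2 : ((k, -1) : ℝ × ℝ) ∈ {p : ℝ × ℝ | circ e p = 0} := he ▸ rfl
  simp only [Set.mem_setOf_eq, circ] at m0 m1 m2
  have e0 : e 0 = 0 := by linear_combination (1 / 2) * m1 + (1 / 2) * m2 - m0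
  have e2 : e 2 = 0 := by linear_combination (1 / 2) * m1 - (1 / 2) * m2
  have e3 : e 3 = - (e 1 * k) := by
    rw [e0, e2] at m0
    linear_combination m0
  have e1 : e 1 ≠ 0 := by
    intro e1
    apply he0
    funext i
    fin_cases i
    · exact e0
    · exact e1
    · exact e2
    · simp [e3, e1]
  have e1' : (e 1 : ℂ) ≠ 0 := by exact_mod_cast e1
  have hp1 : p.1 = (k : ℂ) := by
    unfold circC at h1
    rw [e0, e2, e3] at h1
    push_cast at h1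
    have : (e 1 : ℂ) * (p.1 - k) = 0 := by linear_combination h1
    exact sub_eq_zero.mp ((mul_eq_zero.mp this).resolve_left e1')
  have d1 : deriv (fun s => circC e (p.1, s)) p.2 = 0 := by
    have : (fun s : ℂ => circC e (p.1, s)) = fun _ => (e 1 : ℂ) * p.1 + e 3 := by
      funext s
      simp [circC, e0, e2]
    rw [this]
    simp
  have d2 : deriv (fun s => circC e (s, p.2)) p.1 = e 1 := by
    have : (fun s : ℂ => circC e (s, p.2)) = fun s => (e 1 : ℂ) * s + e 3 := by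
      funext s
      simp [circC, e0, e2]
    rw [this]
    have h := ((hasDerivAt_id p.1).const_mul (e 1 : ℂ)).add_const (e 3 : ℂ)
    simpa using h.deriv
  rw [d1, d2, mul_zero, zero_sub, neg_eq_zero] at h5
  have h6 : deriv (fun s => ev G (p.1, s)) p.2 = 0 := (mul_eq_zero.mp h5).resolve_right e1'
  have h7 : (derivative (G.map (evalRingHom p.1))).eval p.2 = 0 := by
    rw [← h6]
    unfold ev
    simp
  have h8 := hr p.1 p.2 h2 h7
  rw [hp1] at h8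
  exact h8

lemma pencil_vec (m : ℝ) (f g : Fin 4 → ℝ)
    (hfg : LinearIndependent ℝ ![f, g]) (k : ℝ) (h : InPencil f g (topView (C₂ (m, k)))) :
    (![0, 1, -m, -m ^ 2] : Fin 4 → ℝ) ∈ Submodule.span ℝ (Set.range ![f, g]) := by
  obtain ⟨s, t, hst, hL⟩ := h
  rw [topView_C₂] at hL
  set v := s • f + t • g with hv
  have m0 : ((m ^ 2 + m * 0, 0) : ℝ × ℝ) ∈ {p : ℝ × ℝ | circ v p = 0} := hL ▸ rfl
  have m1 : ((m ^ 2 + m * 1, 1) : ℝ × ℝ) ∈ {p : ℝ × ℝ | circ v p = 0} := hL ▸ rfl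
  have m2 : ((m ^ 2 + m * (-1), -1) : ℝ × ℝ) ∈ {p : ℝ × ℝ | circ v p = 0} := hL ▸ rfl
  simp only [Set.mem_setOf_eq, circ] at m0 m1 m2
  have v0 : v 0 = 0 := by
    have : v 0 * (m ^ 2 + 1) = 0 := by
      linear_combination (1 / 2) * m1 + (1 / 2) * m2 - m0
    exact (mul_eq_zero.mp this).resolve_right (by positivity)
  rw [v0] at m0 m1 m2
  have v2 : v 2 = - m * v 1 := by linear_combination (1 / 2) * m1 - (1 / 2) * m2
  have v3 : v 3 = - m ^ 2 * v 1 := by linear_combination m0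
  have hv1 : v 1 ≠ 0 := by
    intro h1
    have hv0 : s • f + t • g = 0 := by
      rw [← hv]
      funext i
      fin_cases i
      · exact v0
      · exact h1
      · simp [v2, h1]
      · simp [v3, h1]
    have := LinearIndependent.pair_iff.mp hfg s t hv0
    rcases hst with h | h
    · exact h this.1
    · exact h this.2
  have hvm : v ∈ Submodule.span ℝ (Set.range ![f, g]) := by
    rw [hv]
    apply Submodule.add_mem
    · exact Submodule.smul_mem _ _ (Submodule.subset_span ⟨0, rfl⟩)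
    · exact Submodule.smul_mem _ _ (Submodule.subset_span ⟨1, rfl⟩)
  have : (![0, 1, -m, -m ^ 2] : Fin 4 → ℝ) = (v 1)⁻¹ • v := by
    funext i
    fin_cases i
    · simp [v0]
    · simp [hv1]
    · simp [v2]
      field_simp
    · simp [v3]
      field_simp
  rw [this]
  exact Submodule.smul_mem _ _ hvm

lemma three_not_in_pencil (a b c : ℝ) (hab : a ≠ b) (hac : a ≠ c) (hbc : b ≠ c)
    (f g : Fin 4 → ℝ) (hfg : LinearIndependent ℝ ![f, g])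
    (ha : InPencil f g (topView (C₂ (a, 1)))) (hb : InPencil f g (topView (C₂ (b, 1))))
    (hc : InPencil f g (topView (C₂ (c, 1)))) : False := by
  have h1 := pencil_vec a f g hfg 1 ha
  have h2 := pencil_vec b f g hfg 1 hb
  have h3 := pencil_vec c f g hfg 1 hc
  set W := Submodule.span ℝ (Set.range ![f, g]) with hW
  have hdim : Module.finrank ℝ W ≤ 2 := by
    have := finrank_range_le_card (R := ℝ) ![f, g]
    simpa [Set.finrank] using this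
  have hli : LinearIndependent ℝ
      (![⟨_, h1⟩, ⟨_, h2⟩, ⟨_, h3⟩] : Fin 3 → W) := by
    rw [Fintype.linearIndependent_iff]
    intro w hw
    have hw' := congrArg (fun z : W => (z : Fin 4 → ℝ)) hw
    simp only [Fin.sum_univ_three] at hw'
    have x1 := congrFun hw' 1
    have x2 := congrFun hw' 2
    have x3 := congrFun hw' 3
    simp at x1 x2 x3
    have hw0 : w 0 * ((a - b) * (a - c)) = 0 := by
      linear_combination (b * c) * x1 + (b + c) * x2 - x3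
    have hw1 : w 1 * ((b - a) * (b - c)) = 0 := by
      linear_combination (a * c) * x1 + (a + c) * x2 - x3
    have hw2 : w 2 * ((c - a) * (c - b)) = 0 := by
      linear_combination (a * b) * x1 + (a + b) * x2 - x3
    have n0 : (a - b) * (a - c) ≠ 0 := mul_ne_zero (sub_ne_zero.mpr hab) (sub_ne_zero.mpr hac)
    have n1 : (b - a) * (b - c) ≠ 0 :=
      mul_ne_zero (sub_ne_zero.mpr hab.symm) (sub_ne_zero.mpr hbc)
    have n2 : (c - a) * (c - b) ≠ 0 :=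
      mul_ne_zero (sub_ne_zero.mpr hac.symm) (sub_ne_zero.mpr hbc.symm)
    intro i
    fin_cases i
    · exact (mul_eq_zero.mp hw0).resolve_right n0
    · exact (mul_eq_zero.mp hw1).resolve_right n1
    · exact (mul_eq_zero.mp hw2).resolve_right n2
  have := hli.fintype_card_le_finrank
  simp at this
  omega

lemma not_B : ¬ AlternativeB D₀ C₁ C₂ := by
  rintro ⟨f, g, f', g', hfg, hfg', h⟩
  have H : ∀ m : ℝ, 0 < m → InPencil f g (topView (C₂ (m, 1))) ∨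
      InPencil f' g' (topView (C₂ (m, 1))) := fun m hm =>
    h (m, 1) ⟨Set.mem_Ioi.mpr hm, Set.mem_Ioi.mpr one_pos⟩ _ (Or.inr rfl)
  have T := three_not_in_pencil
  have n12 : (1 : ℝ) ≠ 2 := by norm_num
  have n13 : (1 : ℝ) ≠ 3 := by norm_num
  have n14 : (1 : ℝ) ≠ 4 := by norm_num
  have n15 : (1 : ℝ) ≠ 5 := by norm_num
  have n23 : (2 : ℝ) ≠ 3 := by norm_num
  have n24 : (2 : ℝ) ≠ 4 := by norm_num
  have n25 : (2 : ℝ) ≠ 5 := by norm_num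
  have n34 : (3 : ℝ) ≠ 4 := by norm_num
  have n35 : (3 : ℝ) ≠ 5 := by norm_num
  have n45 : (4 : ℝ) ≠ 5 := by norm_num
  rcases H 1 (by norm_num) with h1 | h1 <;> rcases H 2 (by norm_num) with h2 | h2 <;>
    rcases H 3 (by norm_num) with h3 | h3 <;> rcases H 4 (by norm_num) with h4 | h4 <;>
    rcases H 5 (by norm_num) with h5 | h5 <;>
    first
    | exact T 1 2 3 n12 n13 n23 _ _ ‹_› h1 h2 h3
    | exact T 1 2 4 n12 n14 n24 _ _ ‹_› h1 h2 h4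
    | exact T 1 2 5 n12 n15 n25 _ _ ‹_› h1 h2 h5
    | exact T 1 3 4 n13 n14 n34 _ _ ‹_› h1 h3 h4
    | exact T 1 3 5 n13 n15 n35 _ _ ‹_› h1 h3 h5
    | exact T 1 4 5 n14 n15 n45 _ _ ‹_› h1 h4 h5
    | exact T 2 3 4 n23 n24 n34 _ _ ‹_› h2 h3 h4
    | exact T 2 3 5 n23 n25 n35 _ _ ‹_› h2 h3 h5
    | exact T 2 4 5 n24 n25 n45 _ _ ‹_› h2 h4 h5
    | exact T 3 4 5 n34 n35 n45 _ _ ‹_› h3 h4 h5

/-- **Some analytic surface satisfying (H) satisfies neither (a) nor (b).** -/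
theorem result : ∃ (D : Set (ℝ × ℝ)) (φ : ℝ × ℝ → ℝ × ℝ × ℝ)
    (K₁ K₂ : ℝ × ℝ → Set (ℝ × ℝ × ℝ)) (F₁ F₂ : (ℝ × ℝ) × ℝ → ℝ × ℝ × ℝ),
    HypothesisH D φ K₁ K₂ F₁ F₂ ∧ ¬ AlternativeA D K₁ K₂ ∧ ¬ AlternativeB D K₁ K₂ :=
  ⟨D₀, φ₀, C₁, C₂, G₁, G₂, hypH, not_A, not_B⟩

end Pool.Agent.Results.MP_c33e78_gt.ParabolasOverTangentLines
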